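import Pool.Agent.TH53.BL11

set_option autoImplicit false

/-!
# Quotients of sums of radicals over bounded extensions of fields of smooth roots
-/

namespace Pool.Agent.V5helper74.RS

open IntermediateField
open Pool.Agent.W237.RK
open Pool.Agent.H58P (Qb ht)
open Pool.Agent.H58R (ht_nonneg)
open Pool.Agent.TH53.RP
open Pool.Agent.TH53.BL

/-- the number of conjugates over a finite extension -/
theorem orb_extM (M L : GF) (hL : M ≤ L) (E : IntermediateField M Qb)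
    [FiniteDimensional M E] (x : Qb) :
    (orb L x).ncard ≤ Module.finrank M E * (orb (L ⊔ E.restrictScalars ℚ) x).ncard := by
  classical
  set F : GF := L ⊔ E.restrictScalars ℚ with hF
  let r : fixG L → (E →ₐ[M] Qb) := fun σ =>
    { toFun := fun y => σ.1 (y : Qb)
      map_one' := by simp
      map_mul' := fun a b => by simp
      map_zero' := by simp
      map_add' := fun a b => by simp
      commutes' := fun c => σ.2 _ (hL c.2) }
  have hr : ∀ σ (y : E), r σ y = σ.1 (y : Qb) := fun _ _ => rfl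
  let s : (E →ₐ[M] Qb) → Set Qb := fun φ => {y | ∃ σ : fixG L, r σ = φ ∧ σ.1 x = y}
  have hs : ∀ φ, (s φ).ncard ≤ (orb F x).ncard := by
    intro φ
    by_cases hne : ∃ σ : fixG L, r σ = φ
    · obtain ⟨σ₀, hσ₀⟩ := hne
      have hsub : s φ ⊆ σ₀.1 '' orb F x := by
        rintro _ ⟨σ, hσ, rfl⟩
        refine ⟨(σ₀.1⁻¹ * σ.1) x, ⟨σ₀.1⁻¹ * σ.1, ?_, rfl⟩, ?_⟩
        · apply fix_sup (fix_mul (fix_inv σ₀.2) σ.2)
          intro y hy
          have h1 : σ.1 y = σ₀.1 y := by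
            have := DFunLike.congr_fun (hσ.trans hσ₀.symm) (⟨y, hy⟩ : E)
            exact this
          rw [AlgEquiv.mul_apply, h1, inv_apply_self]
        · rw [AlgEquiv.mul_apply, apply_inv_self]
      refine (Set.ncard_le_ncard hsub ((orb_finite F x).image _)).trans ?_
      exact Set.ncard_image_le (orb_finite F x)
    · have : s φ = ∅ := by
        rw [Set.eq_empty_iff_forall_notMem]
        rintro y ⟨σ, hσ, -⟩
        exact hne ⟨σ, hσ⟩
      rw [this, Set.ncard_empty]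
      exact Nat.zero_le _
  have hcover : orb L x ⊆ ⋃ φ ∈ (Finset.univ : Finset (E →ₐ[M] Qb)), s φ := by
    rintro _ ⟨σ, hσ, rfl⟩
    simp only [Finset.mem_univ, Set.iUnion_true, Set.mem_iUnion]
    exact ⟨r ⟨σ, hσ⟩, ⟨σ, hσ⟩, rfl, rfl⟩
  have hfin : ∀ φ, (s φ).Finite := by
    intro φ
    apply (orb_finite L x).subset
    rintro _ ⟨σ, -, rfl⟩
    exact ⟨σ.1, σ.2, rfl⟩
  calc (orb L x).ncard ≤ (⋃ φ ∈ (Finset.univ : Finset (E →ₐ[M] Qb)), s φ).ncard := by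
        refine Set.ncard_le_ncard hcover ?_
        exact Set.Finite.biUnion (Finset.finite_toSet _) fun φ _ => hfin φ
    _ ≤ ∑ φ ∈ (Finset.univ : Finset (E →ₐ[M] Qb)), (s φ).ncard :=
        Finset.set_ncard_biUnion_le _ _
    _ ≤ ∑ φ ∈ (Finset.univ : Finset (E →ₐ[M] Qb)), (orb F x).ncard :=
        Finset.sum_le_sum fun φ _ => hs φ
    _ = Module.finrank M E * (orb F x).ncard := by
        rw [Finset.sum_const, Finset.card_univ, AlgHom.card, smul_eq_mul]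

/-- the inequality outside of the division group of the large group -/
theorem main4 (K : GF) (Γ : Subgroup Qbˣ) (hKfd : FiniteDimensional ℚ K) (hΓfg : Γ.FG)
    (hΓK : ∀ g ∈ Γ, (g : Qb) ∈ K) (P : Finset ℕ) (hP : ∀ p ∈ P, p.Prime) :
    ∃ A : ℕ, 0 < A ∧
    ∀ (M : GF), M ≤ fullField K Γ P →
      ∀ (k l D : ℕ) (E : IntermediateField M Qb), FiniteDimensional M E →
      Module.finrank M E ≤ D → ∀ (θ : Fin k → Qb) (θ' : Fin l → Qb),
      (∀ j, ∃ m : ℕ, 0 < m ∧ θ j ^ m ∈ E) → (∀ j, ∃ m : ℕ, 0 < m ∧ θ' j ^ m ∈ E) →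
      ∀ α : Qb, α * ∑ j, θ' j = ∑ j, θ j → ∑ j, θ' j ≠ 0 → α ≠ 0 → ¬ DivG Γ α →
      lowc A (D * B2 (k + l)) / ((minpoly (divF Γ) α).natDegree : ℝ) ≤ ht α := by
  obtain ⟨A, hA, hmain⟩ := dist' K Γ hKfd hΓfg hΓK P hP
  refine ⟨A + 1, Nat.succ_pos _, ?_⟩
  intro M hM k l D E hE hD θ θ' hθ hθ' α hα hQ hα0 hnd
  set L : GF := fullField K Γ P with hL
  set F : GF := L ⊔ E.restrictScalars ℚ with hF
  set B : ℕ := B2 (k + l) with hB
  have hTorL : ∀ x : Qb, Tor x → x ∈ L := fun x hx => kinf_le_fullField K Γ P (tor_mem_kinf K hx)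
  have hLF : L ≤ F := le_sup_left
  have hEF : E.restrictScalars ℚ ≤ F := le_sup_right
  have hTorF : ∀ x : Qb, Tor x → x ∈ F := fun x hx => hLF (hTorL x hx)
  have hΓF : ∀ g ∈ Γ, (g : Qb) ∈ F := fun g hg => hLF (le_fullField K Γ P (hΓK g hg))
  have hD0 : 0 < D := lt_of_lt_of_le Module.finrank_pos hD
  have hB0 : 0 < B := B2_pos _
  have hDB : 0 < D * B := Nat.mul_pos hD0 hB0
  set d : ℕ := (minpoly (divF Γ) α).natDegree with hd
  have hd' : (orb (divF Γ) α).ncard = d := orb_ncard _ _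
  have hd0 : 0 < d := by rw [← hd']; exact orb_ncard_pos _ _
  have hdR : (1 : ℝ) ≤ d := by exact_mod_cast hd0
  have hBR : (1 : ℝ) ≤ B := by exact_mod_cast hB0
  have hAR : (1 : ℝ) ≤ A := by exact_mod_cast hA
  have hDBR : (1 : ℝ) ≤ ((D * B : ℕ) : ℝ) := by exact_mod_cast hDB
  have hBDB : (B : ℝ) ≤ ((D * B : ℕ) : ℝ) := by exact_mod_cast Nat.le_mul_of_pos_left _ hD0
  have hpow : (1 : ℝ) ≤ ((D * B : ℕ) : ℝ) ^ A := one_le_pow₀ hDBR
  -- comparison of the constants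
  have hconst : (A : ℝ) * ((D * B : ℕ) : ℝ) ^ A * B ≤
      ((A + 1 : ℕ) : ℝ) * ((D * B : ℕ) : ℝ) ^ (A + 1) := by
    rw [pow_succ]
    push_cast
    push_cast at hBDB hpow hDBR
    have h1 : (A : ℝ) * ((D : ℝ) * B) ^ A * B ≤ A * ((D : ℝ) * B) ^ A * (D * B) := by
      apply mul_le_mul_of_nonneg_left hBDB (by positivity)
    have h2 : (0 : ℝ) ≤ ((D : ℝ) * B) ^ A * (D * B) := by positivity
    nlinarith
  rw [lowc, ← one_div, div_div, div_le_iff₀ (by positivity)]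
  rcases step3 F hTorF θ θ' (fun j => by
      obtain ⟨m, hm, h⟩ := hθ j
      exact ⟨m, hm, hEF h⟩) (fun j => by
      obtain ⟨m, hm, h⟩ := hθ' j
      exact ⟨m, hm, hEF h⟩) α hα hα0 hQ with h | ⟨γ₀, hγ₀, horb⟩
  · -- large height
    have h0 : (0 : ℝ) < B := by linarith
    rw [← hB, inv_le_iff_one_le_mul₀ h0] at h
    have h2 : (B : ℝ) ≤ ((A + 1 : ℕ) : ℝ) * ((D * B : ℕ) : ℝ) ^ (A + 1) * d := by
      have h3 : (B : ℝ) ≤ (A : ℝ) * ((D * B : ℕ) : ℝ) ^ A * B := by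
        have : (1 : ℝ) ≤ (A : ℝ) * ((D * B : ℕ) : ℝ) ^ A := by nlinarith
        nlinarith
      have h4 := h3.trans hconst
      have h5 : (0 : ℝ) ≤ ((A + 1 : ℕ) : ℝ) * ((D * B : ℕ) : ℝ) ^ (A + 1) := by positivity
      nlinarith
    have h6 := ht_nonneg α
    calc (1 : ℝ) ≤ ht α * B := by linarith
      _ ≤ ht α * (((A + 1 : ℕ) : ℝ) * ((D * B : ℕ) : ℝ) ^ (A + 1) * d) :=
          mul_le_mul_of_nonneg_left h2 h6
  · set Fi : GF := F ⊔ divF Γ with hFi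
    set β : Qb := α / γ₀ with hβ
    have hγ₀0 : γ₀ ≠ 0 := hγ₀.1
    have hβ0 : β ≠ 0 := div_ne_zero hα0 hγ₀0
    have hγβ : γ₀ = α / β := by
      rw [hβ]
      field_simp
    have hαβ : α = β * γ₀ := by rw [hβ, div_mul_cancel₀ _ hγ₀0]
    have hFFi : F ≤ Fi := le_sup_left
    have hdFi : divF Γ ≤ Fi := le_sup_right
    -- the order of the radical
    have hord : (orb Fi γ₀).ncard ≤ d * B := by
      conv_lhs => rw [hγβ]
      refine (orb_div_le Fi α β).trans (Nat.mul_le_mul ?_ ?_)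
      · rw [← hd']
        exact Set.ncard_le_ncard (orb_mono hdFi α) (orb_finite _ _)
      · exact (Set.ncard_le_ncard (orb_mono hFFi β) (orb_finite _ _)).trans horb
    obtain ⟨m, hm0, hm, hrig⟩ := torRigid_small (Finf := Fi)
      (fun x hx => hFFi (hTorF x hx)) hγ₀0 hord
    have hmem : γ₀ ^ m ∈ Fi := by
      apply mem_of_fix Fi
      intro ρ hρ
      apply hrig ρ hρ
      exact (hγ₀.pow m).tor ⟨ρ, fix_mono hFFi hρ⟩
    obtain ⟨f, hf, γ, hγ, hfγ⟩ := kummer F Γ hTorF hΓF (γ₀ ^ m) (hγ₀.pow m) hmem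
    have hγ0 : γ ≠ 0 := Pool.Agent.TH53.RP.DivG.ne_zero hγ
    have hf0 : f ≠ 0 := by
      rintro rfl
      rw [zero_mul] at hfγ
      exact pow_ne_zero _ hγ₀0 hfγ
    set y : Qb := β ^ m / f⁻¹ with hy
    have hy' : y = β ^ m * f := by rw [hy, div_inv_eq_mul]
    have hy0 : y ≠ 0 := by rw [hy']; exact mul_ne_zero (pow_ne_zero _ hβ0) hf0
    have hαm : α ^ m = y * γ := by
      rw [hαβ, mul_pow, hfγ, hy']
      ring
    have horby : (orb F y).ncard ≤ B := by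
      rw [hy, orb_div_ncard (inv_ne_zero hf0) (inv_mem hf)]
      exact (orb_pow_ncard β m).trans horb
    have horbL : (orb L y).ncard ≤ D * B :=
      (orb_extM M L hM E y).trans (Nat.mul_le_mul hD horby)
    have hyd : ¬ DivG Γ y := by
      intro hcon
      apply hnd
      have h1 : DivG Γ (α ^ m) := by
        rw [hαm]
        exact Pool.Agent.W237.RK.DivG.mul hcon hγ
      exact Pool.Agent.TH53.RP.DivG.of_pow hm0 h1
    have h2 := hmain (D * B) hDB y hy0 horbL hyd γ⁻¹ (Pool.Agent.TH53.BL.DivG.inv hγ)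
    rw [div_inv_eq_mul, ← hαm, Pool.Agent.H58B.ht_pow, lowc, ← one_div,
      div_le_iff₀ (by positivity)] at h2
    have hmR : (m : ℝ) ≤ (d : ℝ) * B := by exact_mod_cast hm
    have h6 := ht_nonneg α
    have h7 : (0 : ℝ) ≤ (A : ℝ) * ((D * B : ℕ) : ℝ) ^ A := by positivity
    calc (1 : ℝ) ≤ m * ht α * ((A : ℝ) * ((D * B : ℕ) : ℝ) ^ A) := h2
      _ ≤ (d * B) * ht α * ((A : ℝ) * ((D * B : ℕ) : ℝ) ^ A) := by gcongr
      _ = ht α * (((A : ℝ) * ((D * B : ℕ) : ℝ) ^ A * B) * d) := by ring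
      _ ≤ ht α * ((((A + 1 : ℕ) : ℝ) * ((D * B : ℕ) : ℝ) ^ (A + 1)) * d) := by gcongr

/-- the field of smooth roots -/
noncomputable def srf (K : GF) (Γ : Subgroup Qbˣ) (P : Finset ℕ) : GF :=
  K ⊔ IntermediateField.adjoin ℚ
    ({y | ∃ n : ℕ, 0 < n ∧ y ^ n = 1} ∪
      {y | ∃ n : ℕ, (0 < n ∧ ∀ q : ℕ, q.Prime → q ∣ n → q ∈ P) ∧
        ∃ g ∈ Γ, y ^ n = (g : Qb)})

theorem closure_field (Γ : Subgroup Qbˣ) (hΓ : Γ.FG) (K : GF) (hK : FiniteDimensional ℚ K) :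
    ∃ K' : GF, FiniteDimensional ℚ K' ∧ K ≤ K' ∧ ∀ g ∈ Γ, (g : Qb) ∈ K' := by
  obtain ⟨S, hS⟩ := id hΓ
  set T : Set Qb := (fun u : Qbˣ => (u : Qb)) '' (S : Set Qbˣ) with hT
  have hTf : Finite T := (S.finite_toSet.image _)
  have hTfd : FiniteDimensional ℚ (IntermediateField.adjoin ℚ T) :=
    IntermediateField.finiteDimensional_adjoin fun x _ => Pool.Agent.H58P.qb_isIntegral x
  refine ⟨K ⊔ IntermediateField.adjoin ℚ T,
    IntermediateField.finiteDimensional_sup K (IntermediateField.adjoin ℚ T), le_sup_left, ?_⟩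
  intro g hg
  rw [← hS] at hg
  induction hg using Subgroup.closure_induction with
  | mem x hx =>
    exact (le_sup_right : IntermediateField.adjoin ℚ T ≤ K ⊔ IntermediateField.adjoin ℚ T)
      (IntermediateField.subset_adjoin _ _ ⟨x, hx, rfl⟩)
  | one => exact one_mem _
  | mul x y _ _ hx hy => rw [Units.val_mul]; exact mul_mem hx hy
  | inv x _ hx => rw [Units.val_inv_eq_inv_val]; exact inv_mem hx

theorem fg_sup {Γ Γ' : Subgroup Qbˣ} (h : Γ.FG) (h' : Γ'.FG) : (Γ ⊔ Γ').FG := Subgroup.FG.sup h h'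

theorem lowc_le_const {A c₀ : ℕ} (hA : 0 < A) (h : c₀ ≤ A) (X : ℕ) (hX : 0 < X)
    (hc : 0 < c₀) : lowc A X ≤ ((c₀ : ℕ) : ℝ)⁻¹ := by
  unfold lowc
  have h1 : (1 : ℝ) ≤ X := by exact_mod_cast hX
  have h2 : (c₀ : ℝ) ≤ A := by exact_mod_cast h
  have h3 : (1 : ℝ) ≤ (X : ℝ) ^ A := one_le_pow₀ h1
  have h4 : (0 : ℝ) < c₀ := by exact_mod_cast hc
  apply inv_anti₀ h4
  have h5 : (0 : ℝ) < A := by exact_mod_cast hA
  nlinarith

/-- elements of the division group of a larger group -/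
theorem small_case (Γ : Subgroup Qbˣ) (hΓ : Γ.FG) (K : GF) (hK : FiniteDimensional ℚ K) :
    ∃ c₀ : ℕ, 0 < c₀ ∧ ∀ α : Qb, α ≠ 0 → (∃ m : ℕ, 0 < m ∧ α ^ m ∈ K) → ¬ DivG Γ α →
      ((c₀ : ℕ) : ℝ)⁻¹ / ((minpoly (divF Γ) α).natDegree : ℝ) ≤ ht α := by
  obtain ⟨A, hA, h⟩ := main3 Γ hΓ
  obtain ⟨S, hS⟩ := (Module.Finite.fg_top : (⊤ : Submodule ℚ K).FG)
  set T : Set Qb := (fun u : K => (u : Qb)) '' (S : Set K) with hT
  have hTf : Finite T := (S.finite_toSet.image _)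
  set E : IntermediateField cyc Qb := IntermediateField.adjoin cyc T with hE
  have hfd : FiniteDimensional cyc E :=
    IntermediateField.finiteDimensional_adjoin fun x _ =>
      (Pool.Agent.H58P.qb_isIntegral x).tower_top
  have hKE : ∀ y ∈ K, y ∈ E := by
    intro y hy
    have h1 : (⟨y, hy⟩ : K) ∈ Submodule.span ℚ (S : Set K) := by rw [hS]; trivial
    have h2 : ∀ u : K, u ∈ Submodule.span ℚ (S : Set K) → (u : Qb) ∈ E := by
      intro u hu
      induction hu using Submodule.span_induction with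
      | mem x hx => exact IntermediateField.subset_adjoin _ _ ⟨x, hx, rfl⟩
      | zero => exact zero_mem E
      | add x y _ _ hx hy => exact add_mem hx hy
      | smul c x _ hx =>
        have e : ((c • x : K) : Qb) = algebraMap ℚ Qb c * (x : Qb) := by
          rw [← Algebra.smul_def]
          rfl
        rw [e]
        refine mul_mem ?_ hx
        exact E.algebraMap_mem (algebraMap ℚ cyc c)
    exact h2 _ h1
  set D : ℕ := Module.finrank cyc E with hD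
  have hD0 : 0 < D := Module.finrank_pos
  refine ⟨A * (D * B2 (1 + 1)) ^ A, by
    have := B2_pos (1 + 1)
    positivity, ?_⟩
  intro α hα hm hnd
  have h1 := h 1 1 D E hfd le_rfl (fun _ => α) (fun _ => 1) (fun _ => by
    obtain ⟨m, hm, hmK⟩ := hm
    exact ⟨m, hm, hKE _ hmK⟩)
    (fun _ => ⟨1, one_pos, by rw [pow_one]; exact one_mem _⟩) α (by simp) (by simp) hα hnd
  refine le_trans (le_of_eq ?_) h1
  rw [lowc]
  push_cast
  rfl

/-- **the inequality over bounded extensions of fields of smooth roots** -/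
theorem main5 (K : GF) (hK : FiniteDimensional ℚ K) (Γ Γ' : Subgroup Qbˣ) (hΓ : Γ.FG)
    (hΓ' : Γ'.FG) (P : Finset ℕ) (hP : ∀ p ∈ P, p.Prime) :
    ∃ A : ℕ, 0 < A ∧ ∀ (k l D : ℕ) (E : IntermediateField (srf K Γ' P) Qb),
      FiniteDimensional (srf K Γ' P) E → Module.finrank (srf K Γ' P) E ≤ D →
      ∀ (θ : Fin k → Qb) (θ' : Fin l → Qb),
      (∀ j, ∃ m : ℕ, 0 < m ∧ θ j ^ m ∈ E) → (∀ j, ∃ m : ℕ, 0 < m ∧ θ' j ^ m ∈ E) →
      ∀ α : Qb, α * ∑ j, θ' j = ∑ j, θ j → ∑ j, θ' j ≠ 0 → α ≠ 0 → ¬ DivG Γ α →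
      lowc A (D * B2 (k + l)) / ((minpoly (divF Γ) α).natDegree : ℝ) ≤ ht α := by
  obtain ⟨K', hK', hKK', hΓK'⟩ := closure_field (Γ ⊔ Γ') (fg_sup hΓ hΓ') K hK
  obtain ⟨A₁, hA₁, h1⟩ := main4 K' (Γ ⊔ Γ') hK' (fg_sup hΓ hΓ') hΓK' P hP
  obtain ⟨c₀, hc₀, h2⟩ := small_case Γ hΓ K' hK'
  refine ⟨A₁ + c₀, by omega, ?_⟩
  intro k l D E hE hD θ θ' hθ hθ' α hα hQ hα0 hnd
  have hle : srf K Γ' P ≤ fullField K' (Γ ⊔ Γ') P := by
    apply sup_le
    · exact hKK'.trans (le_fullField _ _ _)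
    · rw [IntermediateField.adjoin_le_iff]
      rintro y (hy | ⟨n, hn, g, hg, hy⟩)
      · exact kinf_le_fullField _ _ _ (tor_mem_kinf K' hy)
      · exact (le_sup_right : _ ≤ fullField K' (Γ ⊔ Γ') P)
          (subset_adjoin _ _ (Or.inr ⟨n, hn, g, (le_sup_right : Γ' ≤ Γ ⊔ Γ') hg, hy⟩))
  have hD0 : 0 < D := lt_of_lt_of_le Module.finrank_pos hD
  have hX : 0 < D * B2 (k + l) := Nat.mul_pos hD0 (B2_pos _)
  have hd0 : (0 : ℝ) < ((minpoly (divF Γ) α).natDegree : ℝ) := by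
    have : 0 < (minpoly (divF Γ) α).natDegree :=
      minpoly.natDegree_pos (Pool.Agent.H58P.qb_isIntegral α).tower_top
    exact_mod_cast this
  by_cases hbig : DivG (Γ ⊔ Γ') α
  · obtain ⟨m, hm, g, hg, hαm⟩ := hbig
    refine le_trans ?_ (h2 α hα0 ⟨m, hm, by rw [hαm]; exact hΓK' g hg⟩ hnd)
    exact div_le_div_of_nonneg_right
      (lowc_le_const (by omega) (Nat.le_add_left _ _) _ hX hc₀) hd0.le
  · refine le_trans ?_ (h1 _ hle k l D E hE hD θ θ' hθ hθ' α hα hQ hα0 hbig)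
    have hdiv : divF Γ ≤ divF (Γ ⊔ Γ') := by
      unfold divF
      apply IntermediateField.adjoin.mono
      rintro y ⟨n, hn, g, hg, hy⟩
      exact ⟨n, hn, g, (le_sup_left : Γ ≤ Γ ⊔ Γ') hg, hy⟩
    have hdd : (minpoly (divF (Γ ⊔ Γ')) α).natDegree ≤ (minpoly (divF Γ) α).natDegree := by
      rw [← orb_ncard, ← orb_ncard]
      exact Set.ncard_le_ncard (orb_mono hdiv α) (orb_finite _ _)
    have hd1 : (0 : ℝ) < ((minpoly (divF (Γ ⊔ Γ')) α).natDegree : ℝ) := by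
      have : 0 < (minpoly (divF (Γ ⊔ Γ')) α).natDegree :=
        minpoly.natDegree_pos (Pool.Agent.H58P.qb_isIntegral α).tower_top
      exact_mod_cast this
    have hdd' : ((minpoly (divF (Γ ⊔ Γ')) α).natDegree : ℝ) ≤
        ((minpoly (divF Γ) α).natDegree : ℝ) := by exact_mod_cast hdd
    have h3 := lowc_anti hA₁ hX (Nat.le_add_right A₁ c₀)
    have h4 := lowc_pos hA₁ hX
    calc lowc (A₁ + c₀) (D * B2 (k + l)) / ((minpoly (divF Γ) α).natDegree : ℝ)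
        ≤ lowc A₁ (D * B2 (k + l)) / ((minpoly (divF Γ) α).natDegree : ℝ) :=
          div_le_div_of_nonneg_right h3 hd0.le
      _ ≤ lowc A₁ (D * B2 (k + l)) / ((minpoly (divF (Γ ⊔ Γ')) α).natDegree : ℝ) :=
          div_le_div_of_nonneg_left h4.le hd1 hdd'

end Pool.Agent.V5helper74.RS
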